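import Mathlib

namespace Pool.Agent.H.MP_383f58_co
open Finset SimpleGraph

abbrev V (r : ℕ) := (Fin (r + 1) → Fin 4) × Fin 5

def G (r : ℕ) : SimpleGraph (V r) where
  Adj x y := x.2 ≠ y.2 ∧ ∀ i, x.1 i ≠ y.1 i
  symm := ⟨fun _ _ h => ⟨h.1.symm, fun i => (h.2 i).symm⟩⟩
  loopless := ⟨fun _ h => h.1 rfl⟩

theorem card_img1 {r : ℕ} {s : Finset (V r)} (h : (G r).IsClique s) (i : Fin (r + 1)) :
    (s.image (fun x => x.1 i)).card = s.card := by
  apply card_image_of_injOn
  intro x hx y hy e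
  by_contra hne
  exact (h hx hy hne).2 i e

theorem card_img2 {r : ℕ} {s : Finset (V r)} (h : (G r).IsClique s) :
    (s.image (fun x => x.2)).card = s.card := by
  apply card_image_of_injOn
  intro x hx y hy e
  by_contra hne
  exact (h hx hy hne).1 e

theorem card_le {r : ℕ} {s : Finset (V r)} (h : (G r).IsClique s) : s.card ≤ 4 := by
  rw [← card_img1 h 0]
  simpa using card_le_univ (s.image (fun x => x.1 0))

theorem ins {r : ℕ} {s : Finset (V r)} (h : (G r).IsClique s) (v : V r)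
    (h1 : ∀ i, v.1 i ∉ s.image (fun x => x.1 i)) (h2 : v.2 ∉ s.image (fun x => x.2)) :
    v ∉ s ∧ (G r).IsClique (insert v s : Finset (V r)) := by
  refine ⟨fun hv => h2 (mem_image_of_mem _ hv), ?_⟩
  rw [coe_insert]
  apply h.insert
  intro b hb _
  exact ⟨fun e => h2 (mem_image.2 ⟨b, hb, e.symm⟩), fun i e => h1 i (mem_image.2 ⟨b, hb, e.symm⟩)⟩

theorem step {r : ℕ} {s : Finset (V r)} (h : (G r).IsClique s) (hs : s.card < 4) :
    ∃ v, v ∉ s ∧ (G r).IsClique (insert v s : Finset (V r)) := by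
  have h1 : ∀ i, ∃ a : Fin 4, a ∉ s.image (fun x => x.1 i) := by
    intro i
    by_contra hc
    push Not at hc
    have := card_img1 h i
    rw [eq_univ_iff_forall.2 hc] at this
    simp at this
    omega
  have h2 : ∃ a : Fin 5, a ∉ s.image (fun x => x.2) := by
    by_contra hc
    push Not at hc
    have := card_img2 h
    rw [eq_univ_iff_forall.2 hc] at this
    simp at this
    omega
  choose a ha using h1
  obtain ⟨b, hb⟩ := h2
  exact ⟨(a, b), ins h (a, b) ha hb⟩

theorem pure' (r : ℕ) : ∀ (k : ℕ) (s : Finset (V r)), (G r).IsClique s → s.card + k = 4 →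
    ∃ t : Finset (V r), (G r).IsNClique 4 t ∧ s ⊆ t := by
  intro k
  induction k with
  | zero => exact fun s h hs => ⟨s, ⟨h, hs⟩, Subset.refl _⟩
  | succ k ih =>
    intro s h hs
    obtain ⟨v, hv, hc⟩ := step h (by omega)
    obtain ⟨t, ht, hst⟩ := ih _ hc (by rw [card_insert_of_notMem hv]; omega)
    exact ⟨t, ht, (subset_insert _ _).trans hst⟩

theorem pure (r : ℕ) (s : Finset (V r)) (h : (G r).IsClique s) :
    ∃ t : Finset (V r), (G r).IsNClique 4 t ∧ s ⊆ t :=
  pure' r (4 - s.card) s h (by have := card_le h; omega)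

theorem two (r : ℕ) (s : Finset (V r)) (h : (G r).IsNClique 3 s) :
    {t : Finset (V r) | (G r).IsNClique 4 t ∧ s ⊆ t}.ncard = 2 := by
  have h1 : ∀ i, ∃ a : Fin 4, (s.image (fun x => x.1 i))ᶜ = {a} := by
    intro i
    apply card_eq_one.1
    rw [card_compl, card_img1 h.1 i, h.2]
    simp
  choose a ha using h1
  have h2 : ((s.image (fun x => x.2))ᶜ).card = 2 := by
    rw [card_compl, card_img2 h.1, h.2]
    simp
  have ha' : ∀ i, a i ∉ s.image (fun x => x.1 i) := fun i => by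
    rw [← mem_compl, ha i]; simp
  have e : {t : Finset (V r) | (G r).IsNClique 4 t ∧ s ⊆ t} =
      (fun b => insert (a, b) s) '' ((s.image (fun x => x.2))ᶜ : Finset (Fin 5)) := by
    ext t
    constructor
    · rintro ⟨ht, hst⟩
      obtain ⟨v, hv, rfl⟩ : ∃ v, v ∉ s ∧ insert v s = t :=
        exists_eq_insert_iff.2 ⟨hst, by rw [h.2, ht.2]⟩
      have hadj : ∀ x ∈ s, (G r).Adj v x := fun x hx =>
        ht.1 (by simp) (by simp [hx]) (fun e => hv (e ▸ hx))
      refine ⟨v.2, ?_, ?_⟩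
      · simp only [coe_compl, Set.mem_compl_iff, mem_coe, mem_image]
        rintro ⟨x, hx, e⟩
        exact (hadj x hx).1 e.symm
      · have : a = v.1 := by
          funext i
          have : v.1 i ∈ (s.image (fun x => x.1 i))ᶜ := by
            simp only [mem_compl, mem_image]
            rintro ⟨x, hx, e⟩
            exact (hadj x hx).2 i e.symm
          rw [ha i] at this
          exact (mem_singleton.1 this).symm
        simp [this]
    · rintro ⟨b, hb, rfl⟩
      have hb' : b ∉ s.image (fun x => x.2) := by simpa using hb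
      obtain ⟨h3, h4⟩ := ins h.1 (a, b) ha' hb'
      exact ⟨⟨h4, by rw [card_insert_of_notMem h3, h.2]⟩, subset_insert _ _⟩
  rw [e, Set.InjOn.ncard_image, Set.ncard_coe_finset, h2]
  intro b hb c hc e
  have hb' : b ∉ s.image (fun x => x.2) := by simpa using hb
  have : (a, b) ∈ insert (a, c) s := by
    have e' : insert (a, b) s = insert (a, c) s := e
    rw [← e']; simp
  rcases mem_insert.1 this with h3 | h3
  · simpa using h3
  · exact absurd (mem_image_of_mem (fun x => x.2) h3) hb'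

def fac {r : ℕ} (p : (Fin (r + 1) → Equiv.Perm (Fin 4)) × Fin 5) : Finset (V r) :=
  univ.image (fun k : Fin 4 => (fun i => p.1 i k, p.2.succAbove k))

theorem fac_clique {r : ℕ} (p : (Fin (r + 1) → Equiv.Perm (Fin 4)) × Fin 5) :
    (G r).IsNClique 4 (fac p) := by
  constructor
  · intro x hx y hy hne
    simp only [fac, coe_image, coe_univ, Set.image_univ, Set.mem_range] at hx hy
    obtain ⟨k, rfl⟩ := hx
    obtain ⟨l, rfl⟩ := hy
    have hkl : k ≠ l := fun e => hne (by rw [e])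
    exact ⟨fun e => hkl (Fin.succAbove_right_injective e), fun i e => hkl ((p.1 i).injective e)⟩
  · rw [fac, card_image_of_injective]
    · simp
    · intro k l e
      exact Fin.succAbove_right_injective (congrArg Prod.snd e)

theorem fac_inj {r : ℕ} : Function.Injective (fac (r := r)) := by
  rintro ⟨σ, j⟩ ⟨τ, j'⟩ e
  have hm : ∀ k, ∃ l, ((fun i => τ i l, j'.succAbove l) : V r) = (fun i => σ i k, j.succAbove k) := by
    intro k
    have : ((fun i => σ i k, j.succAbove k) : V r) ∈ fac (σ, j) := mem_image_of_mem _ (mem_univ k)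
    rw [e] at this
    simpa [fac] using this
  have hj : j = j' := by
    by_contra hne
    obtain ⟨k, hk⟩ := Fin.exists_succAbove_eq (Ne.symm hne)
    obtain ⟨l, hl⟩ := hm k
    exact Fin.succAbove_ne j' l ((congrArg Prod.snd hl).trans hk)
  subst hj
  congr 1
  funext i
  ext k
  obtain ⟨l, hl⟩ := hm k
  have : l = k := Fin.succAbove_right_injective (congrArg Prod.snd hl)
  subst this
  have h5 : τ i l = σ i l := congrFun (congrArg Prod.fst hl) i
  rw [h5]

theorem many (r : ℕ) : 24 ^ (r + 1) * 5 ≤ ((G r).cliqueSet 4).ncard := by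
  have h : Set.range (fac (r := r)) ⊆ (G r).cliqueSet 4 := by
    rintro _ ⟨p, rfl⟩
    exact fac_clique p
  have := Set.ncard_le_ncard h (Set.toFinite _)
  rw [Set.ncard_range_of_injective fac_inj] at this
  simpa [Fintype.card_perm, Nat.factorial] using this

theorem cyc_card {a : ℕ} (s : Finset (Fin (a + 4))) (h : (cycleGraph (a + 4)).IsClique s) :
    s.card ≤ 2 := by
  by_contra hc
  obtain ⟨u, hu, v, hv, w, hw, huv, huw, hvw⟩ := two_lt_card.1 (not_le.1 hc)
  have h1 := cycleGraph_adj'.1 (h hu hv huv)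
  have h2 := cycleGraph_adj'.1 (h hu hw huw)
  have h3 := cycleGraph_adj'.1 (h hv hw hvw)
  simp only [Fin.sub_def, Nat.mod_def] at h1 h2 h3
  have e : ∀ x y : Fin (a + 4), (a + 4 - y.val + x.val) / (a + 4) = if y.val ≤ x.val then 1 else 0 := by
    intro x y
    have := x.2
    have := y.2
    split_ifs with hh
    · apply Nat.div_eq_of_lt_le <;> omega
    · apply Nat.div_eq_of_lt; omega
  simp only [e] at h1 h2 h3
  have := u.2
  have := v.2
  have := w.2
  split_ifs at h1 h2 h3 <;> omega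

theorem cyc_two {a : ℕ} (s : Finset (Fin (a + 4))) (h : (cycleGraph (a + 4)).IsClique s)
    (hs : s.card = 2) : ∃ i, s = {i, i + 1} := by
  obtain ⟨u, v, huv, rfl⟩ := card_eq_two.1 hs
  have h1 : (cycleGraph (a + 2 + 2)).Adj u v := h (by simp) (by simp) huv
  rcases cycleGraph_adj.1 h1 with e | e
  · exact ⟨v, by rw [← e, pair_comm]; simp⟩
  · exact ⟨u, by rw [← e]; simp⟩

theorem few (a b : ℕ) :
    (((cycleGraph (a + 4))ᶜ ⊕g (cycleGraph (b + 4))ᶜ)ᶜ.cliqueSet 4).ncard ≤ (a + 4) * (b + 4) := by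
  have h : ((cycleGraph (a + 4))ᶜ ⊕g (cycleGraph (b + 4))ᶜ)ᶜ.cliqueSet 4 ⊆
      Set.range (fun p : Fin (a + 4) × Fin (b + 4) =>
        ({p.1, p.1 + 1} : Finset (Fin (a + 4))).disjSum ({p.2, p.2 + 1} : Finset (Fin (b + 4)))) := by
    intro s hs
    have hl : (cycleGraph (a + 4)).IsClique (s.toLeft : Finset (Fin (a + 4))) := by
      intro x hx y hy hne
      have := hs.1 (mem_coe.2 (mem_toLeft.1 hx)) (mem_coe.2 (mem_toLeft.1 hy)) (by simpa using hne)
      simpa [hne] using this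
    have hr : (cycleGraph (b + 4)).IsClique (s.toRight : Finset (Fin (b + 4))) := by
      intro x hx y hy hne
      have := hs.1 (mem_coe.2 (mem_toRight.1 hx)) (mem_coe.2 (mem_toRight.1 hy)) (by simpa using hne)
      simpa [hne] using this
    have h1 := cyc_card _ hl
    have h2 := cyc_card _ hr
    have h3 := card_toLeft_add_card_toRight (u := s)
    rw [hs.2] at h3
    obtain ⟨i, hi⟩ := cyc_two _ hl (by omega)
    obtain ⟨j, hj⟩ := cyc_two _ hr (by omega)
    exact ⟨(i, j), by simp only [← hi, ← hj, toLeft_disjSum_toRight]⟩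
  have h1 := Set.ncard_le_ncard h (Set.toFinite _)
  refine h1.trans ?_
  rw [← Set.image_univ]
  refine (Set.ncard_image_le).trans ?_
  simp [Set.ncard_univ]

theorem few' (a b : ℕ) (ha : 4 ≤ a) (hb : 4 ≤ b) :
    (((cycleGraph a)ᶜ ⊕g (cycleGraph b)ᶜ)ᶜ.cliqueSet 4).ncard ≤ a * b := by
  obtain ⟨a, rfl⟩ := Nat.exists_eq_add_of_le' ha
  obtain ⟨b, rfl⟩ := Nat.exists_eq_add_of_le' hb
  exact few a b

theorem bern (r : ℕ) : 2 ^ r * (2 + r) ≤ 2 * 3 ^ r := by
  induction r with
  | zero => simp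
  | succ r ih =>
    have : 0 < 2 ^ r := by positivity
    rw [pow_succ, pow_succ]
    nlinarith

theorem grow (c n : ℕ) (hn : n = 4 ^ (3 * c + 1) * 5) :
    c * ((n / 2) * (n - n / 2)) < 24 ^ (3 * c + 1) * 5 := by
  have h1 := bern (3 * c + 1)
  have h2 : n / 2 = 10 * 4 ^ (3 * c) := by rw [hn, pow_succ]; omega
  have h3 : n - n / 2 = 10 * 4 ^ (3 * c) := by rw [h2, hn, pow_succ]; omega
  rw [h3, h2]
  have e1 : (24 : ℕ) ^ (3 * c + 1) = 8 * 8 ^ (3 * c) * 3 ^ (3 * c + 1) := by
    rw [show (24 : ℕ) = 8 * 3 by norm_num, mul_pow, pow_succ 8]; ring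
  have e2 : (4 : ℕ) ^ (3 * c) * 4 ^ (3 * c) = 8 ^ (3 * c) * 2 ^ (3 * c) := by
    rw [← mul_pow, ← mul_pow]
    norm_num
  have h4 : 0 < 8 ^ (3 * c) := by positivity
  have h5 : 0 < 2 ^ (3 * c) := by positivity
  rw [pow_succ 2] at h1
  rw [e1]
  calc c * (10 * 4 ^ (3 * c) * (10 * 4 ^ (3 * c))) = 8 ^ (3 * c) * (100 * c * 2 ^ (3 * c)) := by
        rw [show 10 * 4 ^ (3 * c) * (10 * 4 ^ (3 * c)) = 100 * (4 ^ (3 * c) * 4 ^ (3 * c)) by ring, e2]
        ring
    _ < 8 ^ (3 * c) * (40 * 3 ^ (3 * c + 1)) := by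
        apply Nat.mul_lt_mul_of_pos_left _ h4
        nlinarith
    _ = _ := by ring

end Pool.Agent.H.MP_383f58_co
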